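import Pool.Agent.Y146.KPS.Main

/-!
# MP_5f0950_ag: the standard conjecture D for abelian varieties and the injectivity of the cycle
class map with coefficients in a number field
-/

open CategoryTheory AlgebraicGeometry

universe u v w

namespace Pool.Agent.Results.MP_5f0950_ag.AbelianVarietiesInjectivity

open Pool.Agent.H914 Pool.Agent.TH125.Gal Pool.Agent.Y146.KPS

/-- **For all products of abelian varieties, over all fields, the conjecture D is equivalent to the
injectivity of the cycle class map with coefficients in a number field.** Let `W` be a Weil
cohomology for the varieties over a field, with coefficients in a field `K`, and `G` a class of
varieties, closed under products, such that the group `Γ` acts on the cohomology of its members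
(in the intended use, `W` is the `l`-adic cohomology, `K` the field of the `l`-adic numbers, `Γ` the
Galois group of an algebraic closure of a finitely generated field and `G` consists of the varieties
defined over the finitely generated field). Let `S` be a set of abelian varieties `A` in `G` with
endomorphisms `f` which generate the centre of the algebra of the endomorphisms of `A`, and let `M`
be a subfield of `K` which contains the coefficients of all irreducible factors over `K` of the
minimal polynomials `m` of the `f` which are not self-dual for the Rosati involution. Let `Y` be a
variety whose motive is a direct summand of a direct sum of twists of products of members of `S`,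
for example a variety dominated by such a product. Then numerical and homological equivalence
coincide in codimension `j` on `Y` if and only if cycles of codimension `j` on `Y` with linearly
independent classes over the rational numbers have linearly independent classes over `M`. -/
theorem result {k : Type u} [Field k] {𝒱 : VarClass k} {ops : CycleOps 𝒱}
    (W : WeilCohomology.{u, v} ops) {Γ : Type w} [Group Γ] (χ : Γ →* W.Kˣ)
    (G : Set (GVar W Γ)) (hG : GaloisClass χ G) (M : Subfield W.K) (S : Set (GVar W Γ))
    (hSG : S ⊆ G) (hS : ∀ A ∈ S, AbelianOver χ M A) (Y : 𝒱.Obj)
    (hY : IsGenerated W (GVar.X '' S) Y) (j : ℕ) : HomEqNumIn W Y j ↔ InjectiveOver W M Y j :=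
  homEqNumIn_iff hG hSG hS hY j

end Pool.Agent.Results.MP_5f0950_ag.AbelianVarietiesInjectivity
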