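import Pool.Agent.Y101.Aq.DMain

/-!
# MP_5f0950_ag: the conjecture D for all varieties and the powers of the canonical classes of rational
varieties

Let `C` be the Chow theory (with rational coefficients) of a class of smooth projective varieties, `H` a
Weil cohomology theory, `D` the theory of vector bundles, `can X` the canonical class of `X` and `R` the
class of the rational varieties. The following are equivalent.

1. The conjecture D for all varieties: numerically trivial cycles are homologically trivial.
2. For all **rational** `X` and all `n ≥ 1`: if the power `K_X ^ n` of the **canonical class** is
   numerically trivial, then it is homologically trivial.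
3. For all rational `X` of even dimension `2 n` and all divisors `v` on `X`: if `v ^ n` is numerically
   trivial, then it is homologically trivial.
4. For all rational `X` and all vector bundles `E` on `X`: if the Chern classes `c_i(E)`, `i ≥ 1`, are
   numerically trivial, then they are homologically trivial.

Main steps of the proof of (2 => 1):

* every element of the K-group of a projective variety is the difference of a vector bundle and a
  trivial bundle; so for a numerically trivial class `x` of codimension `i ≥ 2` on `X` there is a vector
  bundle `E` with `ch(E) = (r + 1) - e ^ K_X + n x`, `n ≥ 1`, where `K_X` is the canonical class;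
* then `c_1(E) = - K_X`, so the canonical class of `P(E)` is `- r ξ`;
* the Chern classes of `E ⊕ O(K_X)` are numerically trivial, and the relation between the powers of `ξ`
  multiplied by `ξ - K_X` shows that `ξ ^ (r + 1)` is numerically trivial; if it is homologically
  trivial, then the Chern classes of `E ⊕ O(K_X)` are homologically trivial, by descending the powers
  of `ξ`, and so is `x` by Newton's identities;
* every variety is the centre of a blow-up which is rational.
-/

set_option autoImplicit false

open CategoryTheory AlgebraicGeometry

universe u v w w'

namespace Pool.Agent.Results.MP_5f0950_ag.CanonicalClassPowers

open Pool.Agent.Y101.Aq Pool.Agent.H914 VarClass Obj Pool.Agent.W492.BB Pool.Agent.TH133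

/-- **The conjecture D for all varieties is equivalent to the conjecture D for the powers of the
canonical classes of the rational varieties**, to the conjecture D for the powers `v ^ n` of the
divisors on the rational varieties of dimension `2 n`, and to the conjecture D for the Chern classes of
the vector bundles on the rational varieties. -/
theorem result {k : Type u} [Field k] {𝒱 : VarClass k} {C : TheoryData.{u, v, 0} 𝒱 ℚ}
    [IsChowProj C] {K : Type w} [Field K] {H : WeilTheoryData.{u, v, w} C K} [hH : IsWeilProj H]
    {D : BundleData.{u, v, w'} C} (hD : IsBundleTheory D) {can : ∀ X : 𝒱.Obj, C.A X}
    (hcan : IsCanonical D can) {R : 𝒱.Obj → Prop} (hR : IsRationalClass D R) :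
    List.TFAE [∀ X, StandardD H X, ∀ X, R X → CanonicalPowerD can H X,
      ∀ X, R X → MiddlePowerD D H X, ∀ X, R X → BundleD D H X] :=
  d_global hD (one_ne H) hH.isClassMap hcan hR

end Pool.Agent.Results.MP_5f0950_ag.CanonicalClassPowers
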