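import Pool.Agent.Y104.WL.Fi3

/-!
# The conjecture D for all products is a question on determinant classes

Let `W` be a Weil cohomology theory on a class of smooth proper varieties over a field `k` of any
characteristic, and `G` a class of varieties, closed under products, with an action of a group `Γ`
on the cohomology which has the formal properties of a Galois action (the example: `l`-adic
cohomology, varieties over a finitely generated field, and its Galois group).

Let `S` and `S'` be disjoint sets of varieties in `G`:

* every `X` in `S` satisfies the conjecture D, and the sign operator on the transcendental
  cohomology `T(X)` (the orthogonal complement of all algebraic classes) is algebraic; let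
  `U X = T(X)`, with the form `tr (a b)`;
* every `X` in `S'` is an abelian variety with a polarization `ξ` (what is used is listed in
  `IsAbelian`); let `U X = H¹(X)`, with the form `tr (a b ξ ^ (dim X - 1))`.

Assume that `U X` is semisimple under `Γ` and the algebraic correspondences which preserve `U X`.
(For abelian varieties and `l`-adic cohomology over a finitely generated field this is a theorem of
Tate, Zarhin, Mori and Faltings.) Choose for every member `X` of `S ∪ S'` a flag
`V X 0 ⊇ V X 1 ⊇ ⋯` of homogeneous isotropic subspaces of `U X` which are stable under `Γ` and under
these correspondences. Every member `F` of these flags has a determinant line: if `v 0, v 1, …` is a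
basis of `F ⊆ H¹(A)`, it is spanned by the class `v 0 * v 1 * ⋯` on the abelian variety `A`; if
`v 0, …, v n` is a basis of the even or of the odd part of `F ⊆ T(X)`, it is spanned by the
antisymmetrized product of `v 0, …, v n`, a class on the power `X ^ (n + 1)`. The determinant classes
of the flags are the exterior products of the generators of these lines (`DetClass3`). They are not
zero, and `Γ` acts on them by a character.

The theorem: the conjecture D holds for all products of members of `S ∪ S'` (and for all varieties
covered by them), in all codimensions, **if and only if** no determinant class is algebraic and
numerically trivial.

So for abelian varieties, K3 surfaces, curves, ... the whole conjecture D for all their products is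
a question on these special classes, which are analogues of the classes of Weil on abelian varieties
with complex multiplication by a quadratic field: there is a numerically trivial cycle with a class
different from `0` on one of the products if and only if there is one whose class is a determinant
class. For instance let `A` be an abelian variety with `End⁰(A)` imaginary quadratic, or such that
`H¹(A) = F ⊕ F'` for different isotropic simple subspaces `F`, `F'`. Then D holds for all powers of
`A` if and only if for no `N > 0` one of the two classes `det F ⊠ ⋯ ⊠ det F`, `det F' ⊠ ⋯ ⊠ det F'`
(`N` factors) on `A ^ N` is algebraic and numerically trivial. If there are no stable isotropic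
subspaces, there are no determinant classes, and D holds (`StableIsotropic`, `AbelianVarieties` in
MP_f569db_ag). As `Γ` acts on algebraic classes through a finite group up to Tate twists, the
theorem implies the necessary condition `DeterminantCriterion` in MP_f569db_ag for a failure of D
(some determinants of flags are of finite order up to twists), and for varieties over finite fields
it implies D if all relations between Frobenius eigenvalues which are stable under the
decomposition group at `l` split into pairs (helper146, `StableRelations`, after Clozel 1999). Here
nothing is assumed on the determinants: the theorem says which classes have to be algebraic and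
numerically trivial.

The proof. A numerically trivial class `ζ ≠ 0` on a product gives tensors `z ≠ 0` on the spaces
`U X`; all full contractions of all products of such tensors vanish. By the theory of Hilbert,
Mumford, Kempf and Rousseau (for the product of orthogonal and symplectic groups and the operators
given by correspondences) there is an optimal weighted flag, stable under `Γ` and correspondences,
with rational weights `ω i > 0`. Let `γ i` be the gaps of the weights, and let `Θ` be the product of
the determinant tensors of the members of the flag with suitable multiplicities `n i` proportional
to `γ i`. Because the flag is optimal the product `z ^ d ⊗ Θ` is semistable, that is, some full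
contraction of `⊗ (z ^ d ⊗ Θ)` does not vanish; moreover the weights show that this contraction of
`⊗ z ^ d ⊗ Ξ`, for a tensor `Ξ` antisymmetric in the blocks, depends only on the value of `Ξ` at the
bases of the members of the flag. Now let `u` be a class on the product of the varieties of the
blocks, and let `Ξ` be the antisymmetrization of the tensor `w ↦ tr (w 1 ⋯ w r u)`. If `u` is
orthogonal to all algebraic classes, or algebraic, the contraction is the intersection number of
`ζ ⊠ ⋯ ⊠ ζ ⊠ u` with an algebraic class, and so it is `0`. Hence the determinant class `δ` of the
flag is orthogonal to all classes `u` which are orthogonal to the algebraic classes, that is, `δ`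
is algebraic; and it is orthogonal to all algebraic classes.

Parts of the proof are due to helper977 (first order condition), helper641 (rational weights),
helper850 (destabilizing flags), helper141, helper455 and helper255 (antisymmetric tensors),
helper287 (coordinates, Gram matrices, weights), helper664 (signs), helper907 and helper391
(contractions and tensors of classes), helper779 and helper363 (products of linearly independent
classes), helper70 (exterior products), helper438 (duality) and helper154 (the class of the
Poincare bundle).
-/

universe u v w

namespace Pool.Agent.Results.MP_5f0950_ag.DeterminantClasses

open Pool.Agent.H914 Pool.Agent.TH125.Gal Pool.Agent.Y104.Geo Pool.Agent.Y104.WL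

/-- **The conjecture D for all products is a question on determinant classes.** -/
theorem result {k : Type u} [Field k] {𝒱 : VarClass k} {ops : CycleOps 𝒱}
    (W : WeilCohomology.{u, v} ops) {Γ : Type w} [Group Γ] (χ : Γ →* W.Kˣ) (G : Set (GVar W Γ))
    (hG : GaloisClass χ G) (S S' : Set (GVar W Γ)) (hSG : S ∪ S' ⊆ G) (hSS : ∀ X ∈ S, X ∉ S')
    (ξ : ∀ A : GVar W Γ, W.H A.X)
    (hS : ∀ X ∈ S, HomEqNum W X.X ∧ SignIsAlgebraic W X.X ∧
      SemisimpleIn (transcendental W X.X) X.act (CorrOps W X.X))
    (hS' : ∀ A ∈ S', IsAbelian χ A (ξ A) ∧ SemisimpleIn (W.gr A.X 1) A.act (CorrOps W A.X)) :
    (∀ Y, IsProductOf (GVar.X '' (S ∪ S')) Y → ∀ Y', Covers W Y Y' → HomEqNum W Y') ↔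
      ∀ (r : ℕ) (V : Subs W Γ r),
        (∀ X ∈ S, IsotropicFlag (W.tr X.X) (W.gr X.X) (transcendental W X.X) X.act
          (CorrOps W X.X) (V X)) →
        (∀ A ∈ S', IsotropicFlag (twistBy (W.tr A.X) (ξ A) (A.X.dim - 1)) (W.gr A.X)
          (W.gr A.X 1) A.act (CorrOps W A.X) (V A)) →
        ∀ Y δ, DetClass3 S S' V Y δ → ¬NumTriv W Y δ :=
  homEqNum_iff_detClass3 hG hSG hSS hS hS'

end Pool.Agent.Results.MP_5f0950_ag.DeterminantClasses
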